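import Pool.Agent.Helper8.TB.St

set_option autoImplicit false

/-! StBody: the body is convex, compact and lies between two balls. -/

namespace Pool.Agent.Helper98.TB

open Pool.Helper8.TB MeasureTheory

lemma hh_bd {n m : ℕ} {τ ε : ℝ} {q q1 p r : ℝ → ℝ} (D : Dat m τ ε q q1 p r)
    {e ν : W n} (he : ‖e‖ = 1) (hν : ‖ν‖ = 1) : |hh q p e ν - 1| ≤ ε := by
  have ht : |(inner ℝ ν e : ℝ)| ≤ 1 := by
    have := abs_real_inner_le_norm ν e
    rw [he, hν, mul_one] at this
    exact this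
  have ht2 : (inner ℝ ν e : ℝ) ^ 2 ≤ 1 := by
    rw [← sq_abs]
    nlinarith [abs_nonneg (inner ℝ ν e : ℝ)]
  obtain ⟨h1, h2⟩ := D.sm _ ht2
  have h3 : |(inner ℝ ν e : ℝ) * p (inner ℝ ν e)| ≤ ε / 2 := by
    rw [abs_mul]
    nlinarith [abs_nonneg (inner ℝ ν e : ℝ), abs_nonneg (p (inner ℝ ν e))]
  have h4 : hh q p e ν - 1 = (q (inner ℝ ν e) - 1) + (inner ℝ ν e : ℝ) * p (inner ℝ ν e) := by
    unfold hh; ring
  rw [h4]
  refine (abs_add_le _ _).trans ?_
  linarith

lemma eps_nonneg {m : ℕ} {τ ε : ℝ} {q q1 p r : ℝ → ℝ} (D : Dat m τ ε q q1 p r) : 0 ≤ ε := by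
  obtain ⟨h1, -⟩ := D.sm 0 (by norm_num)
  have := abs_nonneg (q 0 - 1)
  linarith

lemma bd_closed {n : ℕ} {q p : ℝ → ℝ} {e : W n} : IsClosed (Bd q p e) := by
  have : Bd q p e = ⋂ (ν : W n) (_ : ‖ν‖ = 1), {x : W n | (inner ℝ x ν : ℝ) ≤ hh q p e ν} := by
    ext x; simp [Bd]
  rw [this]
  refine isClosed_iInter fun ν => isClosed_iInter fun _ => ?_
  exact isClosed_le (by fun_prop) continuous_const

theorem hBody : StBody := by
  intro n m τ ε q q1 p r D e he
  have hsub : Bd q p e ⊆ Metric.closedBall 0 (1 + ε) := by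
    intro x hx
    rw [mem_closedBall_zero_iff]
    have hε := eps_nonneg D
    by_cases h0 : x = 0
    · rw [h0, norm_zero]; linarith
    · have hn : 0 < ‖x‖ := norm_pos_iff.mpr h0
      have hν : ‖(‖x‖⁻¹ • x : W n)‖ = 1 := by
        rw [norm_smul, norm_inv, norm_norm, inv_mul_cancel₀ hn.ne']
      have h1 := hx _ hν
      have h2 := abs_le.mp (hh_bd D he hν)
      have h3 : (inner ℝ x (‖x‖⁻¹ • x) : ℝ) = ‖x‖ := by
        rw [inner_smul_right, real_inner_self_eq_norm_sq]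
        field_simp
      rw [h3] at h1
      linarith [h2.2]
  refine ⟨?_, ?_, ?_, hsub⟩
  · intro x hx y hy a b ha hb hab ν hν
    have h1 := hx ν hν
    have h2 := hy ν hν
    rw [inner_add_left, real_inner_smul_left, real_inner_smul_left]
    calc a * (inner ℝ x ν : ℝ) + b * (inner ℝ y ν : ℝ) ≤ a * hh q p e ν + b * hh q p e ν :=
          add_le_add (mul_le_mul_of_nonneg_left h1 ha) (mul_le_mul_of_nonneg_left h2 hb)
      _ = hh q p e ν := by rw [← add_mul, hab, one_mul]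
  · exact Metric.isCompact_of_isClosed_isBounded bd_closed (Metric.isBounded_closedBall.subset hsub)
  · intro x hx ν hν
    rw [mem_closedBall_zero_iff] at hx
    have h1 := real_inner_le_norm x ν
    rw [hν, mul_one] at h1
    have h2 := abs_le.mp (hh_bd D he hν)
    linarith [h2.1]

end Pool.Agent.Helper98.TB
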