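import Pool.Agent.Helper87.TB.St

/-!
Project TB, module PC: poor sets are cliques.
-/

set_option autoImplicit false

namespace Pool.Agent.Helper98.TB

open Pool.Agent.Helper87.TB Finset
open scoped Classical

/-- PC. -/
theorem aPC (hZY : StZY) : StPC := by
  intro n r ω N V hP
  let G : SimpleGraph (Fin n) :=
    { Adj := fun i j => i ≠ j ∧ ¬ Rich V ω {i, j}
      symm := ⟨by
        intro i j h
        refine ⟨h.1.symm, ?_⟩
        rw [Finset.pair_comm]
        exact h.2⟩
      loopless := ⟨fun i h => h.1 rfl⟩ }
  have hG : G.CliqueFree (N + 1) := by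
    intro S hS
    obtain ⟨i, hi, j, hj, hij, hr⟩ := hP S hS.card_eq
    exact (hS.isClique hi hj hij).2 hr
  have hsub : poorSets V ω r ⊆ G.cliqueFinset r := by
    intro I hI
    simp only [poorSets, Finset.mem_filter, Finset.mem_univ, true_and] at hI
    rw [SimpleGraph.mem_cliqueFinset_iff]
    refine ⟨?_, hI.1⟩
    intro i hi j hj hij
    refine ⟨hij, hI.2 {i, j} ?_ ⟨i, by simp⟩⟩
    intro k hk
    rcases Finset.mem_insert.1 hk with rfl | hk
    · exact hi
    · rw [Finset.mem_singleton.1 hk]; exact hj
  calc (poorSets V ω r).card * N ^ r ≤ (G.cliqueFinset r).card * N ^ r :=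
        Nat.mul_le_mul_right _ (Finset.card_le_card hsub)
    _ ≤ _ := by
        have := hZY n N r G hG
        convert this

end Pool.Agent.Helper98.TB
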